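import Pool.Agent.H94.PA.H63.VC7.RegG
import Pool.Agent.H94.PA.M34

/-! # The factor of a node and its approximation -/

namespace Pool.Agent.H63.VC8

open Pool.Agent.H63.VC
open Pool.Agent.H63.VC3 Pool.Agent.H63.VC4 Pool.Agent.H63.VC7 Complex

variable {m p : ℕ}

theorem RegG8_Y (r c : ℝ) (hc : 1 ≤ c) (hr : 10 * c ≤ |r|) (Y : ℝ)
    (hY' : Y ≤ 3 / 10 * c / r ^ 2) : Y ≤ 1 / 10 := by
  refine hY'.trans ?_
  have h1 : (10 * c) ^ 2 ≤ r ^ 2 := by
    rw [← sq_abs r]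
    exact pow_le_pow_left₀ (by linarith) hr 2
  have h2 : 0 < r ^ 2 := lt_of_lt_of_le (by positivity) h1
  rw [div_le_iff₀ h2]
  nlinarith

theorem DG8_GD8 (r : ℝ) (n : ℕ) (hn : 2 ≤ n) (A : Finset (Fin m)) (hA : A.Nonempty)
    (hr : 10 * (A.card : ℝ) ≤ |r|) (Y : ℝ) (hY : 0 < Y) (hY' : Y ≤ 3 / 10 * A.card / r ^ 2) :
    ∃ C : ℝ, 0 < C ∧ ∃ D : ℕ, ∀ (M k1 k2 l1 l2 : ℕ) (k : Fin m → ℕ), Win n M k1 k2 l1 l2 →
    (∀ j ∈ A, k j + n ≤ M + 1) →
    (∏ j ∈ A, S M (k j) ^ 2) * ‖DG8 r n M A k - GD8 r Y n M k1 k2 l2 A k‖ ≤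
      C * (M : ℝ) ^ D * Real.exp (M * (4 * A.card * Fr (3 / 4) - 17 / 1000)) := by
  have hY1 : Y ≤ 1 / 10 := RegG8_Y r A.card (by exact_mod_cast hA.card_pos) hr Y hY'
  obtain ⟨C1, hC1, D1, h1⟩ := DG8_PG8 r n hn A hA Y hY hY1
  obtain ⟨C2, hC2, D2, h2⟩ := PG8_FG8 r n hn A hA hr Y hY hY'
  obtain ⟨C3, hC3, D3, h3⟩ := DG8_bound r n hn A
  have hpi := Real.pi_pos
  refine ⟨C1 + 4 * Real.pi * C2 + C3, by positivity, D1 + (D2 + 2) + D3, ?_⟩
  intro M k1 k2 l1 l2 k hwin hk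
  obtain ⟨f1, f2, f3, f4, f5, f6, f7⟩ := win_facts n M k1 k2 l1 l2 hn hwin
  have hM : 2 ≤ M := by have := hwin.big; omega
  have hM0 : (0 : ℝ) ≤ M := Nat.cast_nonneg _
  have hP : 0 ≤ ∏ j ∈ A, S M (k j) ^ 2 := Finset.prod_nonneg fun j _ => sq_nonneg _
  have hexp : ∀ t : ℝ, 17 / 1000 ≤ t →
      Real.exp (M * (4 * A.card * Fr (3 / 4) - t)) ≤
        Real.exp (M * (4 * A.card * Fr (3 / 4) - 17 / 1000)) := by
    intro t ht
    apply Real.exp_le_exp.2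
    apply mul_le_mul_of_nonneg_left _ hM0
    linarith
  by_cases hin : ∀ j ∈ A, k1 ≤ k j ∧ k j ≤ k2
  · have e1 := h1 M k1 k2 l1 l2 k hwin hin
    have e2 := h2 M k1 k2 l1 l2 k hwin hin
    set y : Fin m → ℂ := fun j => ((yk n M (k j) : ℝ) : ℂ) with hy
    have eG : GD8 r Y n M k1 k2 l2 A k = -(4 * Real.pi * I * M ^ 2) *
        FG8 r n M A y (rho n M l2) Y := if_pos hin
    have eq1 : DG8 r n M A k - GD8 r Y n M k1 k2 l2 A k =
        (DG8 r n M A k + 4 * Real.pi * I * M ^ 2 * PG8 r n M A y (rho n M l2) Y) -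
          4 * Real.pi * I * M ^ 2 * (PG8 r n M A y (rho n M l2) Y - FG8 r n M A y (rho n M l2) Y) := by
      rw [eG]; ring
    have n1 : ‖(4 * Real.pi * I * M ^ 2 : ℂ)‖ = 4 * Real.pi * (M : ℝ) ^ 2 := by
      rw [norm_mul, norm_mul, norm_mul, norm_I, norm_pow, Complex.norm_natCast,
        Complex.norm_real, Real.norm_eq_abs, abs_of_pos hpi]
      norm_num
    have n2 : ‖DG8 r n M A k - GD8 r Y n M k1 k2 l2 A k‖ ≤
        ‖DG8 r n M A k + 4 * Real.pi * I * M ^ 2 * PG8 r n M A y (rho n M l2) Y‖ +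
          4 * Real.pi * (M : ℝ) ^ 2 *
            ‖PG8 r n M A y (rho n M l2) Y - FG8 r n M A y (rho n M l2) Y‖ := by
      rw [eq1]
      refine (norm_sub_le _ _).trans ?_
      rw [norm_mul (4 * Real.pi * I * M ^ 2 : ℂ), n1]
    have b1 := RegG_mono (C' := C1) (D' := D1 + (D2 + 2) + D3) (by omega : 1 ≤ M) hC1.le le_rfl
      (by omega) (Real.exp_pos _).le (hexp (40 / 1000) (by norm_num)) e1
    have e2' : (∏ j ∈ A, S M (k j) ^ 2) * (4 * Real.pi * (M : ℝ) ^ 2 *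
        ‖PG8 r n M A y (rho n M l2) Y - FG8 r n M A y (rho n M l2) Y‖) ≤
        (4 * Real.pi * C2) * (M : ℝ) ^ (D2 + 2) *
          Real.exp (M * (4 * A.card * Fr (3 / 4) - 20 / 1000)) := by
      calc (∏ j ∈ A, S M (k j) ^ 2) * (4 * Real.pi * (M : ℝ) ^ 2 *
          ‖PG8 r n M A y (rho n M l2) Y - FG8 r n M A y (rho n M l2) Y‖)
          = (4 * Real.pi * (M : ℝ) ^ 2) * ((∏ j ∈ A, S M (k j) ^ 2) *
            ‖PG8 r n M A y (rho n M l2) Y - FG8 r n M A y (rho n M l2) Y‖) := by ring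
        _ ≤ (4 * Real.pi * (M : ℝ) ^ 2) * (C2 * (M : ℝ) ^ D2 *
            Real.exp (M * (4 * A.card * Fr (3 / 4) - 20 / 1000))) :=
          mul_le_mul_of_nonneg_left e2 (by positivity)
        _ = _ := by rw [pow_add]; ring
    have b2 := RegG_mono (C' := 4 * Real.pi * C2) (D' := D1 + (D2 + 2) + D3)
      (by omega : 1 ≤ M) (by positivity) le_rfl (by omega) (Real.exp_pos _).le
      (hexp (20 / 1000) (by norm_num)) e2'
    calc (∏ j ∈ A, S M (k j) ^ 2) * ‖DG8 r n M A k - GD8 r Y n M k1 k2 l2 A k‖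
        ≤ (∏ j ∈ A, S M (k j) ^ 2) *
          (‖DG8 r n M A k + 4 * Real.pi * I * M ^ 2 * PG8 r n M A y (rho n M l2) Y‖ +
          4 * Real.pi * (M : ℝ) ^ 2 *
            ‖PG8 r n M A y (rho n M l2) Y - FG8 r n M A y (rho n M l2) Y‖) :=
          mul_le_mul_of_nonneg_left n2 hP
      _ ≤ C1 * (M : ℝ) ^ (D1 + (D2 + 2) + D3) *
            Real.exp (M * (4 * A.card * Fr (3 / 4) - 17 / 1000)) +
          (4 * Real.pi * C2) * (M : ℝ) ^ (D1 + (D2 + 2) + D3) *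
            Real.exp (M * (4 * A.card * Fr (3 / 4) - 17 / 1000)) := by
          rw [mul_add]
          exact add_le_add b1 b2
      _ ≤ (C1 + 4 * Real.pi * C2 + C3) * (M : ℝ) ^ (D1 + (D2 + 2) + D3) *
            Real.exp (M * (4 * A.card * Fr (3 / 4) - 17 / 1000)) := by
          have h5 : 0 ≤ C3 * (M : ℝ) ^ (D1 + (D2 + 2) + D3) *
            Real.exp (M * (4 * A.card * Fr (3 / 4) - 17 / 1000)) := by positivity
          rw [add_mul, add_mul, add_mul, add_mul]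
          linarith
  · have eG : GD8 r Y n M k1 k2 l2 A k = 0 := if_neg hin
    rw [eG, sub_zero]
    push Not at hin
    obtain ⟨j₀, hj₀, hj₀'⟩ := hin
    have e3 := h3 M k hM hk
    have hs := RegG_sum M A k j₀ hj₀ (f4 (k j₀) (by
      by_cases hlt : k j₀ < k1
      · exact Or.inl hlt
      · exact Or.inr (hj₀' (not_lt.1 hlt))))
    refine RegG_mono (by omega : 1 ≤ M) hC3.le ?_ (by omega) (Real.exp_pos _).le ?_ e3
    · have : 0 ≤ C1 + 4 * Real.pi * C2 := by positivity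
      linarith
    · apply Real.exp_le_exp.2
      exact mul_le_mul_of_nonneg_left hs hM0

end Pool.Agent.H63.VC8
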